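import Pool.Agent.N581.AS.ClhB

/-!
# Project AS, part CLH
-/

set_option autoImplicit false

namespace Pool.Agent.N581.AS

open Pool.Agent.N139.AS Finset Matrix

theorem exo_in {p : ℕ} {a b : ℤ} (ω : {y : Lam // InL a b y} → ZMod p) {y : Lam}
    (h : InL a b y) : exo p a b ω y = ω ⟨y, h⟩ := by
  unfold exo
  rw [dif_pos h]

theorem exo_out {p : ℕ} {a b : ℤ} (ω : {y : Lam // InL a b y} → ZMod p) {y : Lam}
    (h : ¬ InL a b y) : exo p a b ω y = 0 := by
  unfold exo
  rw [dif_neg h]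

/-- translation of functions on the window -/
noncomputable def ev (p : ℕ) (a b : ℤ) (μ : Lam) (ω : {y : Lam // InL a b y} → ZMod p) :
    {y : Lam // InL a b y} → ZMod p := fun y => exo p a b ω (-μ + y.1)

theorem exo_ev {p : ℕ} {a b : ℤ} {μ : Lam} (hμ : InL a b μ)
    (ω : {y : Lam // InL a b y} → ZMod p) :
    exo p a b (ev p a b μ ω) = fun y => exo p a b ω (-μ + y) := by
  funext y
  by_cases h : InL a b y
  · rw [exo_in _ h]
    rfl
  · rw [exo_out _ h, exo_out]
    intro h1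
    apply h
    have := InL.add hμ h1
    rwa [add_neg_cancel_left] at this

theorem ev_ev {p : ℕ} {a b : ℤ} {μ ν : Lam} (hν : InL a b ν)
    (ω : {y : Lam // InL a b y} → ZMod p) :
    ev p a b (μ - ν) (ev p a b ν ω) = ev p a b μ ω := by
  funext y
  unfold ev
  rw [show (exo p a b fun y : {y : Lam // InL a b y} => exo p a b ω (-ν + y.1)) =
    exo p a b (ev p a b ν ω) from rfl, exo_ev hν]
  simp only
  congr 1
  abel

theorem ev_zero {p : ℕ} {a b : ℤ} (ω : {y : Lam // InL a b y} → ZMod p) :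
    ev p a b 0 ω = ω := by
  funext y
  unfold ev
  rw [neg_zero, zero_add, exo_in ω y.2]

theorem ev_inj {p : ℕ} {a b : ℤ} {μ : Lam} (hμ : InL a b μ) :
    Function.Injective (ev p a b μ) := by
  intro ω ω' h
  have h1 := ev_ev (μ := 0) hμ ω
  have h2 := ev_ev (μ := 0) hμ ω'
  rw [ev_zero] at h1 h2
  rw [← h1, ← h2, h]

open Classical in
theorem t_CLH (hS : S_SPA) (hO : S_OK) : S_CLH := by
  intro p _ K m hm
  refine ⟨2 * K.factorial * m.factorial, by positivity, fun w =>
    ⟨w + 4 * (K * m) + 5 * K + 9 * (2 * K.factorial * m.factorial), fun r hr R d α t hR hA j l hj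
      hjK hl inst => ?_⟩⟩
  set q := 2 * K.factorial * m.factorial with hq
  set a : ℤ := (-(r + K : ℕ) : ℤ) with ha
  set b : ℤ := ((r + K : ℕ) : ℤ) with hb
  have haR : -(R : ℤ) ≤ a := by rw [ha]; omega
  have hbR : b ≤ R := by rw [hb]; omega
  obtain ⟨s1, s2, s3, s4, s5, s6, -, s8⟩ := hS p R d α t hA a b haR hbR
  obtain ⟨s8, -⟩ := s8 inst
  -- the group of translations
  let D : Finset Lam := (univ.image (Subtype.val : {y : Lam // InL a b y} → Lam)).filter
    (fun μ => InL (-(r : ℤ)) (r - j) μ)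
  have hD : ∀ μ, μ ∈ D ↔ InL (-(r : ℤ)) (r - j) μ := by
    intro μ
    simp only [D, mem_filter, mem_image, mem_univ, true_and]
    refine ⟨fun h => h.2, fun h => ⟨⟨⟨μ, imono h (by rw [ha]; push_cast; omega)
      (by rw [hb]; push_cast; omega)⟩, rfl⟩, h⟩⟩
  have hDw : ∀ μ ∈ D, InL a b μ := fun μ h => imono ((hD μ).1 h)
    (by rw [ha]; push_cast; omega) (by rw [hb]; push_cast; omega)
  let F : ({y : Lam // InL a b y} → ZMod p) → Prop := fun ω => PF r j l (exo p a b ω)
  let Ms : ({y : Lam // InL a b y} → ZMod p) → ℝ := fun ω => rtr (EE p α a b (exo p a b ω))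
  let N : ({y : Lam // InL a b y} → ZMod p) → ℕ := fun ω =>
    (D.filter fun ν => F (ev p a b ν ω)).card
  have h0 : ∀ ω, 0 ≤ Ms ω := fun ω => rtr_nonneg (s1 _)
  have hsum : ∑ ω, Ms ω = d := by
    have h1 : ∑ ω, Ms ω = rtr (1 : Mt d) := by
      rw [← s8, rtr_sum]
    rw [h1]
    simp [rtr]
  have hM : ∀ μ ∈ D, ∀ ω, Ms (ev p a b μ ω) = Ms ω := by
    intro μ hμ ω
    have hμw := hDw μ hμ
    have hx1 : (⟨0, μ⟩ : NN p) ∈ SL p := rfl
    have hx2 : (⟨0, μ⟩ : NN p) ∈ WN p a b := ⟨hμw, fun y hy => absurd rfl hy⟩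
    have h1 := s6 (exo p a b ω) ⟨0, μ⟩ hx1 hx2
    simp only [Ms]
    rw [exo_ev hμw]
    set U := α (⟨0, μ⟩ : NN p) with hU
    have h2 : EE p α a b (fun y => exo p a b ω (-μ + y)) =
        U.1 * EE p α a b (exo p a b ω) * star U.1 := by
      rw [h1, Matrix.mul_assoc, Unitary.mul_star_self_of_mem U.2, Matrix.mul_one]
    rw [h2]
    unfold rtr
    rw [Matrix.trace_mul_comm, ← Matrix.mul_assoc, Unitary.star_mul_self_of_mem U.2,
      Matrix.one_mul]
  obtain ⟨P, hP⟩ : ∃ P : ({y : Lam // InL a b y} → ZMod p) → Prop,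
      ∀ ω, P ω ↔ (F ω ∧ m * N ω ≤ D.card) := ⟨_, fun _ => Iff.rfl⟩
  have key := count D ⟨0, (hD 0).2 (InL.zero _ _)⟩
    (fun μ hμ ν hν => (hD _).2 (isub ((hD _).1 hμ) ((hD _).1 hν))) (ev p a b)
    (fun μ hμ => Finite.injective_iff_bijective.1 (ev_inj (hDw μ hμ)))
    (fun μ _ ν hν ω => ev_ev (hDw ν hν) ω) Ms h0 hM P m (by
      intro ω h
      have h2 := ((hP ω).1 h).2
      refine le_trans (Nat.mul_le_mul_left m (card_le_card ?_)) h2
      intro ν hν
      obtain ⟨h3, h4⟩ := mem_filter.1 hν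
      exact mem_filter.2 ⟨h3, ((hP _).1 h4).1⟩)
  rw [hsum] at key
  -- each term
  have term : ∀ ω, rtr ((if F ω then EE p α a b (exo p a b ω) else 0) * (1 - pA p q w α)) ≤
      if P ω then Ms ω else 0 := by
    intro ω
    by_cases hF : F ω
    · rw [if_pos hF]
      have h1 := E_pA p (hO p) (EE p α a b (exo p a b ω)) (exo p a b ω) q w (by
        intro x hx hxw
        have k1 : x ∈ WN p a b := (hO p).mono _ _ _ _ (by rw [ha]; push_cast; omega)
          (by rw [hb]; push_cast; omega) hxw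
        have k2 : x ∈ WN p (-R) R := (hO p).mono _ _ _ _ (by omega) (by omega) hxw
        rw [← (s5 (exo p a b ω) x hx k2).eq]
        exact s4 (exo p a b ω) x hx k1)
      by_cases hbad : m * N ω ≤ D.card
      · rw [if_pos ((hP ω).2 ⟨hF, hbad⟩)]
        rcases h1.1 with h2 | h2
        · rw [h2]
          have : rtr (0 : Mt d) = 0 := by simp [rtr]
          rw [this]
          exact h0 ω
        · rw [h2]
      · rw [if_neg (fun h => hbad ((hP ω).1 h).2)]
        have h2 : EE p α a b (exo p a b ω) * (1 - pA p q w α) = 0 := by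
          refine h1.2 fun x hx => pr_fold p q w hx _ fun y hy => ?_
          refine arith hF hl hj hjK D hD (D.filter fun ν => F (ev p a b ν ω)) ?_
            (by simpa [N] using hbad) q hq hr y hy
          intro μ hμ
          obtain ⟨h3, h4⟩ := mem_filter.1 hμ
          refine ⟨h3, ?_⟩
          have h5 : PF r j l (exo p a b (ev p a b μ ω)) := h4
          rwa [exo_ev (hDw μ h3)] at h5
        rw [h2]
        simp [rtr]
    · rw [if_neg hF, if_neg (fun h => hF ((hP ω).1 h).1), Matrix.zero_mul]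
      simp [rtr]
  have fin1 : rtr ((∑ ω, if F ω then EE p α a b (exo p a b ω) else 0) * (1 - pA p q w α)) ≤
      1 / (m : ℝ) * d := by
    rw [Matrix.sum_mul, rtr_sum]
    have hm' : (0 : ℝ) < m := by exact_mod_cast hm
    rw [div_mul_eq_mul_div, one_mul, le_div_iff₀ hm', mul_comm]
    refine le_trans (mul_le_mul_of_nonneg_left (sum_le_sum fun ω _ => term ω) hm'.le) key
  convert fin1 using 6
  exact Iff.rfl

end Pool.Agent.N581.AS
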