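import Pool.Agent.N139.AS.Defs

/-!
# Project AS, part CLH: arithmetic

If a function on the lamps is periodic up to a translation and has many translates with the same
property, then it is constant on the fibres of a folding map.
-/

set_option autoImplicit false

namespace Pool.Agent.N581.AS

open Pool.Agent.N139.AS Finset

variable {V : Type}

/-- periodic up to a translation -/
def PF (r j : ℕ) (l : Lam) (f : Lam → V) : Prop :=
  ∀ y, InL (-(r : ℤ)) r y → f (shL.symm^[j] y) = f (-l + y)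

/-- shift by `n` -/
noncomputable def A (n : ℤ) : Module.End (ZMod 2) Lam :=
  (Finsupp.domLCongr (Equiv.addRight n) : Lam ≃ₗ[ZMod 2] Lam).toLinearMap

theorem A_apply (n : ℤ) (l : Lam) (i : ℤ) : A n l i = l (i - n) := rfl

theorem A_A (m n : ℤ) (l : Lam) : A m (A n l) = A (m + n) l := by
  ext i
  rw [A_apply, A_apply, A_apply]
  congr 1
  ring

theorem A_zero (l : Lam) : A 0 l = l := by
  ext i
  rw [A_apply, sub_zero]

theorem A_pow (n : ℤ) (k : ℕ) : A n ^ k = A (n * k) := by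
  induction k with
  | zero =>
    refine LinearMap.ext fun l => ?_
    rw [Nat.cast_zero, mul_zero, A_zero, pow_zero]
    rfl
  | succ k ih =>
    rw [pow_succ, ih]
    refine LinearMap.ext fun l => ?_
    show A (n * k) (A n l) = A (n * ((k + 1 : ℕ) : ℤ)) l
    rw [A_A]
    congr 2
    push_cast
    ring

theorem symm_it (j : ℕ) (y : Lam) : shL.symm^[j] y = A (-(j : ℤ)) y := by
  induction j generalizing y with
  | zero => simp [A_zero]
  | succ j ih =>
    rw [Function.iterate_succ_apply, ih]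
    have h1 : shL.symm y = A (-1) y := by
      apply shL.injective
      rw [AddEquiv.apply_symm_apply]
      ext i
      rw [shL_apply, A_apply]
      congr 1
      ring
    rw [h1, A_A]
    congr 2
    push_cast
    ring

theorem imono {a b a' b' : ℤ} {l : Lam} (h : InL a b l) (h1 : a' ≤ a) (h2 : b ≤ b') :
    InL a' b' l := fun i hi => ⟨h1.trans (h i hi).1, (h i hi).2.trans_le h2⟩

theorem iA {a b : ℤ} {l : Lam} (h : InL a b l) (n : ℤ) : InL (a + n) (b + n) (A n l) := by
  intro i hi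
  rw [A_apply] at hi
  have := h _ hi
  omega

theorem isub {a b : ℤ} {l m : Lam} (hl : InL a b l) (hm : InL a b m) : InL a b (l - m) := by
  rw [sub_eq_add_neg]
  exact InL.add hl (InL.neg hm)

/-- the periods of `f` on the window `ρ` -/
def TT (f : Lam → V) (ρ : ℤ) : AddSubgroup Lam where
  carrier := {ν | InL (-ρ) ρ ν ∧ ∀ z, InL (-ρ) ρ z → f (z + ν) = f z}
  zero_mem' := ⟨InL.zero _ _, fun z _ => by rw [add_zero]⟩
  add_mem' := by
    rintro a b ⟨h1, h2⟩ ⟨h3, h4⟩
    refine ⟨h1.add h3, fun z hz => ?_⟩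
    rw [← add_assoc, h4 _ (hz.add h1), h2 z hz]
  neg_mem' := by
    rintro a ⟨h1, h2⟩
    refine ⟨h1.neg, fun z hz => ?_⟩
    have := h2 (z + -a) (hz.add h1.neg)
    rw [neg_add_cancel_right] at this
    exact this.symm

theorem TT.down {f : Lam → V} {ρ ρ' : ℤ} {ν : Lam} (h : ν ∈ TT f ρ) (h1 : ρ' ≤ ρ)
    (h2 : InL (-ρ') ρ' ν) : ν ∈ TT f ρ' :=
  ⟨h2, fun z hz => h.2 z (imono hz (by omega) h1)⟩

theorem bwd {f : Lam → V} {r j K : ℕ} {l : Lam} (hF : PF r j l f) (hl : InL (-(K : ℤ)) K l)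
    {ρ : ℤ} (h1 : (K : ℤ) ≤ ρ) (h2 : ρ ≤ r) {ν : Lam} (hν : ν ∈ TT f ρ)
    (hs : InL (-(ρ - j)) (ρ - j) (A (-(j : ℤ)) ν)) : A (-(j : ℤ)) ν ∈ TT f (ρ - j) := by
  refine ⟨hs, fun z hz => ?_⟩
  have hz1 : InL (-ρ) ρ (A j z) := imono (iA hz j) (by omega) (by omega)
  have e1 : z + A (-(j : ℤ)) ν = A (-(j : ℤ)) (A j z + ν) := by
    rw [map_add, A_A, neg_add_cancel, A_zero]
  have e2 : z = A (-(j : ℤ)) (A j z) := by
    rw [A_A, neg_add_cancel, A_zero]
  have e3 := hF (A j z + ν) (imono (InL.add hz1 hν.1) (by omega) h2)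
  have e4 := hF (A j z) (imono hz1 (by omega) h2)
  rw [symm_it] at e3 e4
  rw [e1, e3]
  conv_rhs => rw [e2, e4]
  have e5 := hν.2 (-l + A j z) (InL.add (imono (InL.neg hl) (by omega) h1) hz1)
  rw [← e5, add_assoc]

theorem pow1 {f : Lam → V} {r j K : ℕ} {l : Lam} (hF : PF r j l f) (hl : InL (-(K : ℤ)) K l)
    {ρ B : ℤ} (h2 : ρ ≤ r) {ν : Lam} (hν : ν ∈ TT f ρ) (hB : InL (-B) ρ ν) (k : ℕ)
    (h3 : B + 2 * (j * k) ≤ ρ) (h4 : (K : ℤ) + j * k ≤ ρ) :
    A (-(j * k : ℤ)) ν ∈ TT f (ρ - j * k) := by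
  induction k with
  | zero => simpa [A_zero] using hν
  | succ k ih =>
    push_cast at h3 h4 ⊢
    have h5 : (0 : ℤ) ≤ j := by positivity
    have ih' := ih (by nlinarith) (by nlinarith)
    have e1 : A (-((j : ℤ) * (k + 1))) ν = A (-(j : ℤ)) (A (-(j * k : ℤ)) ν) := by
      rw [A_A]
      congr 2
      ring
    have e2 : ρ - (j : ℤ) * (k + 1) = ρ - j * k - j := by ring
    rw [e1, e2]
    refine bwd hF hl (by nlinarith) ?_ ih' ?_
    · have : (0 : ℤ) ≤ j * k := by positivity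
      omega
    · rw [A_A]
      refine imono (iA hB _) ?_ ?_
      · nlinarith
      · nlinarith

theorem powN {f : Lam → V} {r j K : ℕ} {l : Lam} (hF : PF r j l f) (hl : InL (-(K : ℤ)) K l)
    {ρ B : ℤ} (h2 : ρ ≤ r) {ν : Lam} (hν : ν ∈ TT f ρ) (hB : InL (-B) B ν) (N : ℕ)
    (h3 : B + 2 * (j * N) ≤ ρ) (h4 : (K : ℤ) + j * N ≤ ρ) (k : ℕ) (hk : k ≤ N) :
    A (-(j * k : ℤ)) ν ∈ TT f (ρ - j * N) := by
  have h5 : (j : ℤ) * k ≤ j * N := by
    have : (k : ℤ) ≤ N := by exact_mod_cast hk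
    have h6 : (0 : ℤ) ≤ j := by positivity
    nlinarith
  have h6 : (0 : ℤ) ≤ j * k := by positivity
  refine TT.down (pow1 hF hl h2 hν (imono hB le_rfl (by omega)) k (by omega) (by omega))
    (by omega) ?_
  exact imono (iA hB _) (by omega) (by omega)

theorem geo {f : Lam → V} {r j K : ℕ} {l : Lam} (hF : PF r j l f) (hl : InL (-(K : ℤ)) K l)
    {ρ B : ℤ} (h2 : ρ ≤ r) {ν : Lam} (hν : ν ∈ TT f ρ) (hB : InL (-B) B ν) (N : ℕ)
    (h3 : B + 2 * (j * N) ≤ ρ) (h4 : (K : ℤ) + j * N ≤ ρ) (c n : ℕ) (hcn : c * n ≤ N) :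
    (∑ k ∈ range n, (A (-(j : ℤ)) ^ c) ^ k) ν ∈ TT f (ρ - j * N) := by
  have e0 : (∑ k ∈ range n, (A (-(j : ℤ)) ^ c) ^ k) ν =
      ∑ k ∈ range n, ((A (-(j : ℤ)) ^ c) ^ k) ν :=
    LinearMap.sum_apply _ _ _
  rw [e0]
  refine AddSubgroup.sum_mem _ fun k hk => ?_
  rw [← pow_mul, A_pow]
  have h5 : c * k ≤ N := by
    have := (mem_range.1 hk).le
    exact (Nat.mul_le_mul_left c this).trans hcn
  have := powN hF hl h2 hν hB N h3 h4 (c * k) h5
  rw [neg_mul]
  exact this

theorem two0 : (1 : Module.End (ZMod 2) Lam) + 1 = 0 := by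
  refine LinearMap.ext fun l => ?_
  show l + l = 0
  ext i
  rw [Finsupp.add_apply]
  exact CharTwo.add_self_eq_zero _

section ring

variable {R : Type} [Ring R]

theorem gc (x : R) (c : ℕ) : (x - 1) * (x ^ c - 1) = (x ^ c - 1) * (x - 1) :=
  (((Commute.refl x).pow_right c).sub_right (Commute.one_right x)).sub_left
    (Commute.one_left _)

theorem g1 (x : R) (c n M : ℕ) (h : c * n = M) :
    (∑ k ∈ range n, (x ^ c) ^ k) * ((x - 1) * (x ^ c - 1)) = (x ^ M - 1) * (x - 1) := by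
  have h1 : (x - 1) * (x ^ c - 1) = (x ^ c - 1) * (x - 1) :=
    (((Commute.refl x).pow_right c).sub_right (Commute.one_right x)).sub_left
      (Commute.one_left _)
  rw [h1, ← mul_assoc, geom_sum_mul, ← pow_mul, h]

theorem g2 (h2 : (1 : R) + 1 = 0) (x : R) (M : ℕ) :
    (∑ k ∈ range M, x ^ k) * ((x ^ M - 1) * (x - 1)) = x ^ (2 * M) - 1 := by
  have h1 : (x ^ M - 1) * (x - 1) = (x - 1) * (x ^ M - 1) :=
    ((((Commute.refl x).pow_right M).sub_right (Commute.one_right x)).sub_left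
      (Commute.one_left _)).symm
  rw [h1, ← mul_assoc, geom_sum_mul]
  have h : (x ^ M - 1) * (x ^ M - 1) = x ^ M * x ^ M - 1 + (1 + 1) * (1 - x ^ M) := by
    simp only [mul_sub, sub_mul, add_mul, one_mul, mul_one]
    abel
  rw [h, h2, zero_mul, add_zero, ← pow_add, two_mul]

theorem g3 (x : R) (M n : ℕ) :
    (∑ k ∈ range n, (x ^ M) ^ k) * (x ^ M - 1) = x ^ (M * n) - 1 := by
  rw [geom_sum_mul, ← pow_mul]

end ring

theorem iX {B : ℤ} {ν : Lam} (hν : InL (-B) B ν) (j k : ℕ) {C : ℤ} (h : B + j * k ≤ C) :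
    InL (-C) C ((A (-(j : ℤ)) ^ k) ν) := by
  rw [A_pow]
  have : (0 : ℤ) ≤ j * k := by positivity
  exact imono (iA hν _) (by linarith) (by linarith)

theorem gen {f : Lam → V} {r j K m : ℕ} {l : Lam} (hF : PF r j l f) (hl : InL (-(K : ℤ)) K l)
    (hjK : j ≤ K) {B0 : ℤ} (hB0 : 0 ≤ B0) {ν : Lam} (hν : InL (-B0) B0 ν) (a c : ℕ) (hc : 0 < c)
    (hb : a + c < m)
    (h : (A (j * a : ℤ) ν - A (j * (a + c) : ℤ) ν) -
      A j (A (j * a : ℤ) ν - A (j * (a + c) : ℤ) ν) ∈ TT f r)
    (q n : ℕ) (hn : 0 < n) (hq : q = j * (2 * m.factorial * n))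
    (hr : B0 + 4 * (K * m) + 4 * K + 8 * q ≤ r) :
    A (-(q : ℤ)) ν - ν ∈ TT f (r - K * m - 2 * q) := by
  set X : Module.End (ZMod 2) Lam := A (-(j : ℤ)) with hX
  set M : ℕ := m.factorial with hM
  have hM0 : 0 < M := Nat.factorial_pos m
  have hcM : c ∣ M := Nat.dvd_factorial hc (by omega)
  obtain ⟨n1, hn1⟩ := hcM
  have hcM' : c ≤ M := by
    rw [hn1]
    refine Nat.le_mul_of_pos_right c (Nat.pos_of_ne_zero ?_)
    rintro rfl
    omega
  -- integer bounds
  have z0 : (0 : ℤ) ≤ j := by positivity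
  have z1 : (j : ℤ) * m ≤ K * m := by
    have : (j : ℤ) ≤ K := by exact_mod_cast hjK
    nlinarith [(Nat.cast_nonneg m : (0 : ℤ) ≤ m)]
  have z2 : 2 * ((j : ℤ) * M) ≤ q := by
    rw [hq]
    push_cast
    have h1 : (1 : ℤ) ≤ n := by exact_mod_cast hn
    have h2 : (0 : ℤ) ≤ j * (2 * M) := by positivity
    nlinarith
  have z3 : (0 : ℤ) ≤ j * M := by positivity
  have z4 : (0 : ℤ) ≤ j * m := by positivity
  have z5 : (j : ℤ) ≤ K := by exact_mod_cast hjK
  have z6 : (j : ℤ) * c ≤ j * M := by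
    have : (c : ℤ) ≤ M := by exact_mod_cast hcM'
    nlinarith
  have z7 : (0 : ℤ) ≤ j * c := by positivity
  have z8 : (j : ℤ) * a + j * c ≤ j * m := by
    have : (a : ℤ) + c ≤ m := by exact_mod_cast hb.le
    nlinarith
  have z9 : (0 : ℤ) ≤ j * a := by positivity
  -- step one
  have e1 : ((X - 1) * (X ^ c - 1)) ν = A (-(j * (a + c + 1 : ℕ) : ℤ))
      ((A (j * a : ℤ) ν - A (j * (a + c) : ℤ) ν) -
        A j (A (j * a : ℤ) ν - A (j * (a + c) : ℤ) ν)) := by
    ext i
    simp only [Module.End.mul_apply, LinearMap.sub_apply, Module.End.one_apply, hX, A_pow, map_sub,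
      A_A, Finsupp.sub_apply, A_apply]
    push_cast
    ring_nf
  set u := (A (j * a : ℤ) ν - A (j * (a + c) : ℤ) ν) -
      A j (A (j * a : ℤ) ν - A (j * (a + c) : ℤ) ν) with hu
  have hBu : InL (-(B0 + 2 * (j * m) + 2 * j)) (B0 + 2 * (j * m) + 2 * j) u := by
    rw [hu, map_sub, A_A, A_A]
    refine isub (isub ?_ ?_) (isub ?_ ?_)
    · exact imono (iA hν _) (by linarith) (by linarith)
    · exact imono (iA hν _) (by linarith) (by linarith)
    · exact imono (iA hν _) (by linarith) (by linarith)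
    · exact imono (iA hν _) (by linarith) (by linarith)
  have t1 : ((X - 1) * (X ^ c - 1)) ν ∈ TT f (r - j * m) := by
    rw [e1]
    exact powN hF hl le_rfl h hBu m (by linarith) (by linarith) _ (by omega)
  -- supports
  set B : ℤ := B0 + 2 * (j * M) + j with hB
  have sup : ∀ k : ℕ, (j : ℤ) * k ≤ j * M → InL (-B) B (((X ^ k - 1) * (X - 1)) ν) := by
    intro k hk
    have e2 : ((X ^ k - 1) * (X - 1)) ν = (X ^ (k + 1)) ν - (X ^ k) ν - ((X ^ 1) ν - ν) := by
      rw [pow_succ, pow_one]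
      show (X ^ k) (X ν - ν) - (X ν - ν) = (X ^ k) (X ν) - (X ^ k) ν - (X ν - ν)
      rw [map_sub]
    rw [e2]
    refine isub (isub ?_ ?_) (isub ?_ ?_)
    · refine iX hν _ _ ?_
      push_cast
      linarith
    · refine iX hν _ _ ?_
      linarith
    · refine iX hν _ _ ?_
      push_cast
      linarith
    · exact imono hν (by linarith) (by linarith)
  have hcomm : (X - 1) * (X ^ c - 1) = (X ^ c - 1) * (X - 1) := gc X c
  -- step two
  have t2 := geo hF hl (by linarith) t1 (by rw [hcomm]; exact sup c z6) M (by linarith)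
    (by linarith) c n1 hn1.ge
  rw [← Module.End.mul_apply, ← hX, g1 X c n1 M hn1.symm] at t2
  -- step three
  have t3 := geo hF hl (by linarith) t2 (sup M le_rfl) M (by linarith) (by linarith) 1 M
    (by omega)
  rw [← Module.End.mul_apply, ← hX, pow_one, g2 two0 X M] at t3
  -- step four
  have hN : (j : ℤ) * ((2 * M * n : ℕ) : ℤ) = q := by
    rw [hq]
    push_cast
    ring
  have s3 : InL (-B) B ((X ^ (2 * M) - 1) ν) := by
    show InL (-B) B ((X ^ (2 * M)) ν - ν)
    refine isub ?_ (imono hν (by linarith) (by linarith))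
    refine iX hν _ _ ?_
    push_cast
    linarith
  have t4 := geo hF hl (by linarith) t3 s3 (2 * M * n) (by rw [hN]; linarith)
    (by rw [hN]; linarith) (2 * M) n le_rfl
  rw [← Module.End.mul_apply, ← hX, g3 X (2 * M) n, hN] at t4
  have e4 : (X ^ (2 * M * n) - 1) ν = A (-(q : ℤ)) ν - ν := by
    show (X ^ (2 * M * n)) ν - ν = _
    rw [hX, A_pow, neg_mul, hN]
  rw [e4] at t4
  refine TT.down t4 (by linarith) ?_
  refine isub (imono (iA hν _) (by linarith) (by linarith))
    (imono hν (by linarith) (by linarith))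

theorem dconv {f : Lam → V} {r j K : ℕ} {l : Lam} (hF : PF r j l f) (hl : InL (-(K : ℤ)) K l)
    (hK : K ≤ r) {ν : Lam} (hν : InL (-(r : ℤ)) (r - j) ν)
    (h : PF r j l (fun y => f (-ν + y))) : ν - A j ν ∈ TT f r := by
  have i1 : InL (-(r : ℤ)) r (A j ν) := imono (iA hν j) (by omega) (by omega)
  have i2 : InL (-(r : ℤ)) r ν := imono hν le_rfl (by omega)
  refine ⟨isub i2 i1, fun z hz => ?_⟩
  have i3 : InL (-(r : ℤ)) r (z + l + ν) := InL.add (InL.add hz (imono hl (by omega) (by omega))) i2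
  have e1 := hF (z + l + ν - A j ν) (isub i3 i1)
  have e2 := h (z + l + ν) i3
  rw [symm_it] at e1 e2
  have e3 : A (-(j : ℤ)) (z + l + ν - A j ν) = -ν + A (-(j : ℤ)) (z + l + ν) := by
    rw [map_sub, A_A, neg_add_cancel, A_zero]
    abel
  have e4 : -l + (z + l + ν - A j ν) = z + (ν - A j ν) := by abel
  have e5 : -ν + (-l + (z + l + ν)) = z := by abel
  simp only at e2
  rw [e3, e4] at e1
  rw [e5] at e2
  rw [← e1, e2]

theorem pig {f : Lam → V} {r j K m : ℕ} {l : Lam} (hF : PF r j l f) (hl : InL (-(K : ℤ)) K l)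
    (hK : K ≤ r) (D : Finset Lam) (hD : ∀ μ, μ ∈ D ↔ InL (-(r : ℤ)) (r - j) μ)
    (E : Finset Lam) (hE : ∀ μ ∈ E, μ ∈ D ∧ PF r j l (fun y => f (-μ + y)))
    (hc : D.card < m * E.card) {B0 : ℤ} {ν : Lam} (hν : InL (-B0) B0 ν)
    (hB : B0 + j * m + j ≤ r) : ∃ a c : ℕ, 0 < c ∧ a + c < m ∧
      (A (j * a : ℤ) ν - A (j * (a + c) : ℤ) ν) -
      A j (A (j * a : ℤ) ν - A (j * (a + c) : ℤ) ν) ∈ TT f r := by
  have h1 : D.card < ((range m) ×ˢ E).card := by
    rw [card_product, card_range]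
    exact hc
  obtain ⟨⟨a, d1⟩, ha, ⟨b, d2⟩, hb, hne, heq⟩ :=
    exists_ne_map_eq_of_card_lt_of_maps_to (f := fun x : ℕ × Lam => A (j * x.1 : ℤ) ν + x.2) h1 (by
      rintro ⟨a, d⟩ had
      have had' : a ∈ range m ∧ d ∈ E := by simpa using had
      have h2 := (hE d had'.2).1
      simp only
      refine (hD _).2 (InL.add ?_ ((hD _).1 h2))
      have h3 : (j : ℤ) * a ≤ j * m := by
        have : (a : ℤ) ≤ m := by exact_mod_cast (mem_range.1 had'.1).le
        have h4 : (0 : ℤ) ≤ j := by positivity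
        nlinarith
      have h4 : (0 : ℤ) ≤ j * a := by positivity
      exact imono (iA hν _) (by linarith) (by linarith))
  have ha' : a ∈ range m ∧ d1 ∈ E := by simpa using ha
  have hb' : b ∈ range m ∧ d2 ∈ E := by simpa using hb
  simp only at heq
  have k1 := dconv hF hl hK ((hD _).1 (hE d1 ha'.2).1) (hE d1 ha'.2).2
  have k2 := dconv hF hl hK ((hD _).1 (hE d2 hb'.2).1) (hE d2 hb'.2).2
  rcases lt_trichotomy a b with hab | hab | hab
  · refine ⟨a, b - a, by omega, by have := mem_range.1 hb'.1; omega, ?_⟩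
    have e0 : ((a : ℤ) + ((b - a : ℕ) : ℤ)) = b := by
      rw [Nat.cast_sub hab.le]
      ring
    rw [e0]
    have e1 : A (j * a : ℤ) ν - A (j * b : ℤ) ν = d2 - d1 := by
      rw [sub_eq_sub_iff_add_eq_add, heq, add_comm]
    rw [e1, map_sub]
    have := AddSubgroup.sub_mem _ k2 k1
    convert this using 1
    abel
  · subst hab
    exact absurd (by rw [add_left_cancel heq]) hne
  · refine ⟨b, a - b, by omega, by have := mem_range.1 ha'.1; omega, ?_⟩
    have e0 : ((b : ℤ) + ((a - b : ℕ) : ℤ)) = a := by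
      rw [Nat.cast_sub hab.le]
      ring
    rw [e0]
    have e1 : A (j * b : ℤ) ν - A (j * a : ℤ) ν = d1 - d2 := by
      rw [sub_eq_sub_iff_add_eq_add, ← heq, add_comm]
    rw [e1, map_sub]
    have := AddSubgroup.sub_mem _ k1 k2
    convert this using 1
    abel

theorem A_single (n i : ℤ) : A n (Finsupp.single i 1) = Finsupp.single (i + n) 1 := by
  ext k
  rw [A_apply, Finsupp.single_apply, Finsupp.single_apply]
  congr 1
  exact propext ⟨fun h => by omega, fun h => by omega⟩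

theorem fold {f : Lam → V} {ρ : ℤ} {q w : ℕ} (hq : 0 < q) (h1 : (q : ℤ) ≤ ρ)
    (h : ∀ i : ℤ, -(w + q : ℤ) ≤ i → i < w + q →
      A (-(q : ℤ)) (Finsupp.single i 1) - Finsupp.single i 1 ∈ TT f ρ) (y : Lam)
    (hy : InL (-(w : ℤ)) w y) : f (fL q y) = f y := by
  have hq' : (0 : ℤ) < q := by exact_mod_cast hq
  have up : ∀ (n : ℕ) (i : ℤ), -(q : ℤ) ≤ i → i < 0 → i + q * n < w + q →
      (Finsupp.single (i + q * n) 1 - Finsupp.single i 1 : Lam) ∈ TT f ρ := by
    intro n
    induction n with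
    | zero => intro i _ _ _; simp
    | succ n ih =>
      intro i h2 h3 h4
      push_cast at h4 ⊢
      have h5 : (0 : ℤ) ≤ q * n := by positivity
      have ih' := ih i h2 h3 (by linarith)
      have h6 := h (i + q * (n + 1)) (by linarith) h4
      rw [A_single] at h6
      have e1 : i + (q : ℤ) * (n + 1) + -q = i + q * n := by ring
      rw [e1] at h6
      have := AddSubgroup.sub_mem _ ih' h6
      convert this using 1
      abel
  have down : ∀ (n : ℕ) (i : ℤ), -(q : ℤ) ≤ i → i < 0 → -(w + q : ℤ) ≤ i - q * n →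
      (Finsupp.single (i - q * n) 1 - Finsupp.single i 1 : Lam) ∈ TT f ρ := by
    intro n
    induction n with
    | zero => intro i _ _ _; simp
    | succ n ih =>
      intro i h2 h3 h4
      push_cast at h4 ⊢
      have h5 : (0 : ℤ) ≤ q * n := by positivity
      have ih' := ih i h2 h3 (by linarith)
      have h6 := h (i - q * n) (by linarith) (by linarith)
      rw [A_single] at h6
      have e1 : i - (q : ℤ) * n + -q = i - q * (n + 1) := by ring
      rw [e1] at h6
      have := AddSubgroup.add_mem _ h6 ih'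
      convert this using 1
      abel
  have one : ∀ i : ℤ, -(w : ℤ) ≤ i → i < w →
      (Finsupp.single i 1 - Finsupp.single (fi q i) 1 : Lam) ∈ TT f ρ := by
    intro i h2 h3
    have h4 : -(q : ℤ) ≤ fi q i := by
      have := Int.emod_nonneg i hq'.ne'
      unfold fi
      linarith
    have h5 : fi q i < 0 := by
      have := Int.emod_lt_of_pos i hq'
      unfold fi
      linarith
    have h6 : i = fi q i + q * (i / q + 1) := by
      have := Int.emod_add_mul_ediv i q
      unfold fi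
      linarith
    rcases le_total 0 (i / q + 1) with h7 | h7
    · obtain ⟨n, hn⟩ := Int.eq_ofNat_of_zero_le h7
      rw [hn] at h6
      have := up n (fi q i) h4 h5 (by rw [← h6]; linarith)
      rw [← h6] at this
      exact this
    · obtain ⟨n, hn⟩ := Int.eq_ofNat_of_zero_le (neg_nonneg.2 h7)
      have hn' : i / (q : ℤ) + 1 = -n := by linarith
      rw [hn'] at h6
      have h8 : i = fi q i - q * n := by linarith
      have := down n (fi q i) h4 h5 (by rw [← h8]; linarith)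
      rw [← h8] at this
      exact this
  have key : y - fL q y ∈ TT f ρ := by
    have e1 : y - fL q y = y.sum fun i c => Finsupp.single i c - Finsupp.single (fi q i) c := by
      rw [Finsupp.sum_sub]
      congr 1
      exact (Finsupp.sum_single y).symm
    rw [e1]
    refine AddSubgroup.sum_mem _ fun i hi => ?_
    have h2 := hy i (Finsupp.mem_support_iff.1 hi)
    have h3 : y i = 1 := by
      have := Finsupp.mem_support_iff.1 hi
      revert this
      generalize y i = c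
      revert c
      decide
    simp only [h3]
    exact one i h2.1 h2.2
  have hfl : InL (-ρ) ρ (fL q y) := by
    intro i hi
    have h2 : i ∈ (Finsupp.mapDomain (fi q) y).support := Finsupp.mem_support_iff.2 hi
    obtain ⟨k, _, rfl⟩ := mem_image.1 (Finsupp.mapDomain_support h2)
    have h4 := Int.emod_nonneg k hq'.ne'
    have h5 := Int.emod_lt_of_pos k hq'
    unfold fi
    constructor <;> linarith
  have := key.2 (fL q y) hfl
  rw [add_sub_cancel] at this
  exact this.symm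

/-- the arithmetic part -/
theorem arith {f : Lam → V} {r j K m w : ℕ} {l : Lam} (hF : PF r j l f)
    (hl : InL (-(K : ℤ)) K l) (hj : 0 < j) (hjK : j ≤ K) (D : Finset Lam)
    (hD : ∀ μ, μ ∈ D ↔ InL (-(r : ℤ)) (r - j) μ)
    (E : Finset Lam) (hE : ∀ μ ∈ E, μ ∈ D ∧ PF r j l (fun y => f (-μ + y)))
    (hc : D.card < m * E.card) (q : ℕ) (hq : q = 2 * K.factorial * m.factorial)
    (hr : w + 4 * (K * m) + 5 * K + 9 * q ≤ r) (y : Lam)
    (hy : InL (-(w : ℤ)) w y) : f (fL q y) = f y := by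
  have hq0 : 0 < q := by
    rw [hq]
    have := Nat.factorial_pos K
    have := Nat.factorial_pos m
    positivity
  obtain ⟨n, hn⟩ := Nat.dvd_factorial hj hjK
  have hn0 : 0 < n := by
    rcases Nat.eq_zero_or_pos n with h | h
    · rw [h, mul_zero] at hn
      exact absurd hn (Nat.factorial_pos K).ne'
    · exact h
  have hq' : q = j * (2 * m.factorial * n) := by
    rw [hq, hn]
    ring
  have hr' : (w : ℤ) + 4 * (K * m) + 5 * K + 9 * q ≤ r := by exact_mod_cast hr
  have hKm : (0 : ℤ) ≤ K * m := by positivity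
  have hjm : (j : ℤ) * m ≤ K * m := by
    have : (j : ℤ) ≤ K := by exact_mod_cast hjK
    nlinarith [(Nat.cast_nonneg m : (0 : ℤ) ≤ m)]
  have hjK' : (j : ℤ) ≤ K := by exact_mod_cast hjK
  refine fold (ρ := r - K * m - 2 * q) (w := w) hq0 (by linarith) (fun i h1 h2 => ?_) y hy
  have hν : InL (-(w + q : ℤ)) (w + q) (Finsupp.single i 1 : Lam) := by
    intro k hk
    have : i = k := by
      by_contra h
      exact hk (Finsupp.single_eq_of_ne' h)
    omega
  obtain ⟨a, c, h3, h4, h5⟩ := pig hF hl (by omega) D hD E hE hc hν (by linarith)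
  exact gen hF hl hjK (by positivity) hν a c h3 h4 h5 q n hn0 hq' (by linarith)

end Pool.Agent.N581.AS
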