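import Pool.Agent.N139.AS.Stm
import Pool.Agent.N581.AS.ClhA

/-!
# Project AS, part CLH: counting and spectral projections
-/

set_option autoImplicit false

namespace Pool.Agent.N581.AS

open Pool.Agent.N139.AS Finset Matrix

open Classical in
theorem count {Ω : Type} [Fintype Ω] (D : Finset Lam) (h0D : D.Nonempty)
    (hDs : ∀ μ ∈ D, ∀ ν ∈ D, μ - ν ∈ D) (e : Lam → Ω → Ω)
    (he : ∀ μ ∈ D, Function.Bijective (e μ))
    (hee : ∀ μ ∈ D, ∀ ν ∈ D, ∀ ω, e (μ - ν) (e ν ω) = e μ ω) (Ms : Ω → ℝ)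
    (h0 : ∀ ω, 0 ≤ Ms ω) (hM : ∀ μ ∈ D, ∀ ω, Ms (e μ ω) = Ms ω) (P : Ω → Prop) (m : ℕ)
    (hP : ∀ ω, P ω → m * (D.filter fun ν => P (e ν ω)).card ≤ D.card) :
    (m : ℝ) * (∑ ω, if P ω then Ms ω else 0) ≤ ∑ ω, Ms ω := by
  have h1 : ∀ ω, m * (D.filter fun μ => P (e μ ω)).card ≤ D.card := by
    intro ω
    rcases (D.filter fun μ => P (e μ ω)).eq_empty_or_nonempty with h | ⟨μ0, hμ0⟩
    · rw [h, card_empty, mul_zero]
      exact Nat.zero_le _
    · obtain ⟨h2, h3⟩ := mem_filter.1 hμ0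
      refine le_trans (Nat.mul_le_mul_left m ?_) (hP _ h3)
      refine card_le_card_of_injOn (fun μ => μ - μ0) (fun μ hμ => ?_) (fun μ _ ν _ h => ?_)
      · obtain ⟨h4, h5⟩ := mem_filter.1 (mem_coe.1 hμ)
        refine mem_coe.2 (mem_filter.2 ⟨hDs μ h4 μ0 h2, ?_⟩)
        simp only
        rw [hee μ h4 μ0 h2]
        exact h5
      · exact sub_left_injective h
  have h2 : (D.card : ℝ) * ((m : ℝ) * (∑ ω, if P ω then Ms ω else 0)) =
      ∑ ω, Ms ω * (m * ((D.filter fun μ => P (e μ ω)).card : ℝ)) := by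
    have h3 : ∀ μ ∈ D, (∑ ω, if P ω then Ms ω else 0) = ∑ ω, if P (e μ ω) then Ms ω else 0 := by
      intro μ hμ
      rw [← (he μ hμ).sum_comp (fun ω => if P ω then Ms ω else 0)]
      exact sum_congr rfl fun ω _ => by rw [hM μ hμ]
    calc (D.card : ℝ) * ((m : ℝ) * (∑ ω, if P ω then Ms ω else 0))
        = m * ∑ μ ∈ D, (∑ ω, if P ω then Ms ω else 0) := by
          rw [sum_const, nsmul_eq_mul]
          ring
      _ = m * ∑ μ ∈ D, (∑ ω, if P (e μ ω) then Ms ω else 0) := by rw [sum_congr rfl h3]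
      _ = m * ∑ ω, ∑ μ ∈ D, (if P (e μ ω) then Ms ω else 0) := by rw [sum_comm]
      _ = ∑ ω, Ms ω * (m * ((D.filter fun μ => P (e μ ω)).card : ℝ)) := by
          rw [mul_sum]
          refine sum_congr rfl fun ω _ => ?_
          rw [← sum_filter, sum_const, nsmul_eq_mul]
          ring
  have h3 : (0 : ℝ) < D.card := by exact_mod_cast h0D.card_pos
  have h4 : (D.card : ℝ) * ((m : ℝ) * (∑ ω, if P ω then Ms ω else 0)) ≤ D.card * ∑ ω, Ms ω := by
    rw [h2, mul_sum]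
    refine sum_le_sum fun ω _ => ?_
    rw [mul_comm (D.card : ℝ)]
    refine mul_le_mul_of_nonneg_left ?_ (h0 ω)
    exact_mod_cast h1 ω
  exact le_of_mul_le_mul_left h4 h3

open scoped ComplexOrder in
theorem rtr_nonneg {d : ℕ} {e : Mt d} (h : IsP e) : 0 ≤ rtr e := by
  have h1 : e = eᴴ * e := by
    rw [h.1.eq, h.2]
  unfold rtr
  rw [h1]
  have := Matrix.posSemidef_conjTranspose_mul_self e
  have h2 := this.trace_nonneg
  exact (Complex.nonneg_iff.1 h2).1

theorem rtr_sum {d : ℕ} {ι : Type} (s : Finset ι) (f : ι → Mt d) :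
    rtr (∑ i ∈ s, f i) = ∑ i ∈ s, rtr (f i) := by
  unfold rtr
  rw [Matrix.trace_sum, Complex.re_sum]

/-- the group over which `pA` averages -/
noncomputable def H0 (p q w : ℕ) : Subgroup (NN p) := SA p ⊓ (fN p q).ker ⊓ WN p (-w) w

theorem pr_mul (p : ℕ) {x y : NN p} (hx : x ∈ SA p) (ω : Lam → ZMod p) :
    pr p (x * y) ω = pr p x ω + pr p y ω := by
  have h1 : x.l = 0 := hx
  unfold pr
  rw [NN.mul_a, h1]
  have h2 : trl p 0 y.a = y.a := by
    ext z
    rw [trl_apply, neg_zero, zero_add]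
  rw [h2]
  exact Finsupp.sum_add_index' (fun _ => by simp) (fun _ _ _ => by ring)

theorem pr_fold (p q w : ℕ) {x : NN p} (hx : x ∈ H0 p q w) (ω : Lam → ZMod p)
    (h : ∀ y, InL (-(w : ℤ)) w y → ω (fL q y) = ω y) : pr p x ω = 0 := by
  obtain ⟨⟨h1, h2⟩, h3⟩ := hx
  have h4 : fA p q x.a = 0 := congrArg NN.a (MonoidHom.mem_ker.1 h2)
  have h5 : pr p x ω = (Finsupp.mapDomain (fL q) x.a).sum fun y c => c * ω y := by
    rw [Finsupp.sum_mapDomain_index (fun _ => by simp) (fun _ _ _ => by ring)]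
    refine sum_congr rfl fun y hy => ?_
    simp only
    rw [h y (h3.2 y (Finsupp.mem_support_iff.1 hy))]
  rw [h5]
  have h6 : Finsupp.mapDomain (fL q) x.a = 0 := h4
  rw [h6]
  exact Finsupp.sum_zero_index

/-- the character of `H0` -/
noncomputable def chi (p q w : ℕ) [Fact p.Prime] (ω : Lam → ZMod p) : H0 p q w →* ℂ where
  toFun x := ZMod.stdAddChar (pr p x.1 ω)
  map_one' := by
    have : pr p (1 : NN p) ω = 0 := Finsupp.sum_zero_index
    simp only [OneMemClass.coe_one]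
    rw [this, AddChar.map_zero_eq_one]
  map_mul' x y := by
    simp only [Subgroup.coe_mul]
    rw [pr_mul p x.2.1.1, AddChar.map_add_eq_mul]

theorem E_pA (p : ℕ) [Fact p.Prime] (hO : (SS p).Ok) {d : ℕ} {α : NN p → UU d} (E : Mt d)
    (ω : Lam → ZMod p) (q w : ℕ)
    (hE : ∀ x ∈ SA p, x ∈ WN p (-w) w →
      E * (α x).1 = (ZMod.stdAddChar (pr p x ω) : ℂ) • E) :
    (E * (1 - pA p q w α) = 0 ∨ E * (1 - pA p q w α) = E) ∧
      ((∀ x ∈ H0 p q w, pr p x ω = 0) → E * (1 - pA p q w α) = 0) := by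
  have hT : {n | n ∈ SA p ∧ fN p q n = 1 ∧ n ∈ WN p (-w) w} = (H0 p q w : Set (NN p)) := by
    ext n
    simp only [H0, Set.mem_ofPred_eq, SetLike.mem_coe, Subgroup.mem_inf, MonoidHom.mem_ker,
      and_assoc]
  have hfin : Finite (H0 p q w) := by
    have h1 : Finite (WN p (-w) w) := hO.fin (-w) w
    exact Finite.of_injective (fun x : H0 p q w => (⟨x.1, x.2.2⟩ : WN p (-w) w))
      (fun x y h => Subtype.ext (congrArg (fun z : WN p (-w) w => z.1) h))
  have := Fintype.ofFinite (H0 p q w)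
  have h1 : pA p q w α = ((Fintype.card (H0 p q w) : ℂ)⁻¹) • ∑ x : H0 p q w, (α x.1).1 := by
    unfold pA avS
    rw [hT]
    congr 1
    · rw [← Nat.card_eq_fintype_card]
      rfl
    · rw [← finsum_set_coe_eq_finsum_mem, finsum_eq_sum_of_fintype]
      rfl
  have h2 : E * pA p q w α =
      ((Fintype.card (H0 p q w) : ℂ)⁻¹ * ∑ x : H0 p q w, chi p q w ω x) • E := by
    rw [h1, Matrix.mul_smul, Matrix.mul_sum, mul_smul, Finset.sum_smul]
    congr 1
    refine sum_congr rfl fun x _ => ?_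
    exact hE x.1 x.2.1.1 x.2.2
  have h3 : (Fintype.card (H0 p q w) : ℂ) ≠ 0 := by
    have : Fintype.card (H0 p q w) ≠ 0 := Fintype.card_ne_zero
    exact_mod_cast this
  by_cases hchi : chi p q w ω = 1
  · have h4 : E * pA p q w α = E := by
      rw [h2, hchi]
      simp only [MonoidHom.one_apply, sum_const, card_univ, nsmul_eq_mul, mul_one]
      rw [inv_mul_cancel₀ h3, one_smul]
    have h5 : E * (1 - pA p q w α) = 0 := by
      rw [mul_sub, mul_one, h4, sub_self]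
    exact ⟨Or.inl h5, fun _ => h5⟩
  · have h4 : E * (1 - pA p q w α) = E := by
      rw [mul_sub, mul_one, h2, sum_hom_units_eq_zero _ hchi, mul_zero, zero_smul, sub_zero]
    refine ⟨Or.inr h4, fun h => absurd ?_ hchi⟩
    refine MonoidHom.ext fun x => ?_
    show (ZMod.stdAddChar (pr p x.1 ω) : ℂ) = 1
    rw [h x.1 x.2, AddChar.map_zero_eq_one]

end Pool.Agent.N581.AS
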